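import Mathlib
import Pool.Agent.TH115.GD.Defs
import Pool.Agent.R939.EI.Gen6
import Pool.Agent.R939.PP.AllS

/-!
# The Tate conjecture at 2 for almost all elliptic surfaces and all their monic integral base changes

Let `k` be a number field, `K = k(t)`, `F = k'(t)` with `k'` a separable closure of `k`. Every elliptic
curve over `K` with a rational point of order two has an equation `E : y² = x (x² + a x + b)` with
polynomials `a`, `b`. `TateAtTwo` says that all the classes in `V₂ Sel(E / F)` which are fixed by the
Galois group of `k` come from `E(K)`: the Tate conjecture for divisors at the prime 2 on the elliptic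
surface over the projective line with generic fibre `E`.

Fix `r ≥ 2`, `m₁, …, m_s ≥ 1` and `n₁, …, n_u ≥ 1` (`u = 0` is allowed) such that not all the `m_i` are 2
and `m₁ + ⋯ + m_s ≥ 2 r + 2`. Let `a` of degree at most `r`, `b_i` of degree at most `m_i` and `D_l` of
degree at most `n_l` run through the polynomials whose coefficients are integers of `k` with coordinates
between `-H` and `H`; let `b = b₁ ⋯ b_s`, `D = D₁ ⋯ D_u`.

Theorem. For all `(a, b₁, …, b_s, D₁, …, D_u)`, with the exception of a proportion which tends to zero if
`H` tends to infinity, the following holds: for ALL monic polynomials `g` of odd degree whose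
coefficients are integers of `k` and ALL constants `c ≠ 0` the Tate conjecture at 2 holds for the
elliptic surface `y² = x (x² + c a(g) D(g) x + c² b(g) D(g)²)`, the base change by `t ↦ g(t)` of the
quadratic twist by `c D` of `E`.

There is no hypothesis on the members of the family, and the set of the `g` does not depend on the
member; it contains polynomials of all the odd degrees, so there are surfaces of unbounded genus over
each member.

Proof. By `Pool.Agent.Results.MP_021685_ag.AlmostAllSurfaces` it is enough that the primes which divide
`b (a² - 4 b) D` remain prime after `t ↦ g(t)`. Let `f` be one of the `b_i`, `D_l` or `a² - 4 b`; for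
almost all members `f` is irreducible. Suppose that a prime ideal `P` divides the leading coefficient of
`f` exactly once, and `f` is not zero modulo `P`. If `f(g)` is a product of two polynomials of positive
degree, then by the lemma of Gauss one of the two has a root `x` which is integral at `P`; so `g(x)`, a
root of `f`, is integral at `P`, a contradiction (`Pool.Agent.R939.PP.Star`). It remains to find `P`.
The leading coefficient of `a² - 4 b` is `-4` times the product of those of the `b_i`. For almost all
choices of finitely many integers of `k` there is a prime ideal of large norm which divides the first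
one exactly once and does not divide the others (`Pool.Agent.R939.PP.MonS`, `Pool.Agent.R939.PP.Sq2`).
This is shown by counting: the number of elements of an ideal in a box is bounded with a packing
argument, uniformly for ideals of all norms (`Pool.Agent.R939.PP.Sq`); the integers without a prime
factor of large norm are divisible by a high power of a prime ideal or have small norm.
-/

namespace Pool.Agent.Results.MP_17a657_ag.AlmostAllSurfacesMonicCovers

open Polynomial NumberField Pool.Agent.TH115.GD Pool.Agent.R939.EI

theorem result {k k' K F : Type} [Field k] [NumberField k] [Field k'] [Algebra k k'] [Field K]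
    [Algebra k[X] K] [Field F] [Algebra k'[X] F] [IsFractionRing k'[X] F] [Algebra K F]
    (hT : IsTower k k' K F) {J : Type} [Fintype J] (B : Module.Basis J ℤ (𝓞 k)) {r s u : ℕ}
    {m : Fin s → ℕ} {n : Fin u → ℕ} (hr : 2 ≤ r) (hm : ∀ i, 1 ≤ m i) (h2 : ∃ i, m i ≠ 2)
    (hM : 2 * r + 2 ≤ ∑ i, m i) (hn : ∀ l, 1 ≤ n l) {η : ℝ} (hη : 0 < η) :
    ∃ H0 : ℕ, ∀ H : ℕ, H0 ≤ H →
      (({x : (Fin (r + 1) → 𝓞 k) × ((i : Fin s) → Fin (m i + 1) → 𝓞 k) ×
          ((l : Fin u) → Fin (n l + 1) → 𝓞 k) |
        ((∀ j t, |B.repr (x.1 j) t| ≤ (H : ℤ)) ∧ (∀ i j t, |B.repr (x.2.1 i j) t| ≤ (H : ℤ)) ∧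
          ∀ l j t, |B.repr (x.2.2 l j) t| ≤ (H : ℤ)) ∧
        ¬ ∀ (c : k) (g : (𝓞 k)[X]), c ≠ 0 → g.Monic → Odd g.natDegree →
          TateAtTwo (F := F) k' (crvT
            (algebraMap k[X] K ((C c * ((polA fun j => algebraMap (𝓞 k) k (x.1 j)) *
              ∏ l, polA fun j => algebraMap (𝓞 k) k (x.2.2 l j))).comp
                (g.map (algebraMap (𝓞 k) k))))
            (algebraMap k[X] K ((C (c ^ 2) * ((polP fun i j => algebraMap (𝓞 k) k (x.2.1 i j)) *
              (∏ l, polA fun j => algebraMap (𝓞 k) k (x.2.2 l j)) ^ 2)).comp
                (g.map (algebraMap (𝓞 k) k)))))}.ncard : ℕ) : ℝ) ≤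
        η * (2 * H + 1) ^ (Fintype.card J * (r + 1 + ∑ i, (m i + 1) + ∑ l, (n l + 1))) :=
  Pool.Agent.R939.PP.almost_monic hT B hr hm hn h2 hM hη

end Pool.Agent.Results.MP_17a657_ag.AlmostAllSurfacesMonicCovers
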