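import Mathlib
import Pool.Agent.TH115.GD.Defs
import Pool.Agent.TH115.ID.Defs
import Pool.Agent.R939.EI.Sec3

/-!
# The Tate conjecture at 2 for almost all elliptic surfaces with a section of infinite order

Let `k` be a number field, `k'` an algebraic closure, `K = k(t)`, `F = k'(t)`. The elliptic curve

`E : y² = x (x² + (G² - A - B) x + A B)`,  `A`, `B`, `G` polynomials over `k`,

has the points `(0, 0)` and `(A, A G)` over `K`. The second one is of infinite order in general, so
these are surfaces with Mordell-Weil group of positive rank. `TateAtTwo` says that all the classes in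
`V₂ Sel(E / F)` which are fixed by the Galois group of `k` come from `E(K)`: the Tate conjecture for
divisors at the prime 2 on the elliptic surface over the projective line with generic fibre `E`.

Here `A = ∏ q_i (i ∈ U)` and `B = ∏ q_i (i ∉ U)`, where `q₁, ..., q_s` are polynomials of given degrees
`m₁, ..., m_s`, and `U` is a set of indices; so there are reducible fibres over the zeros of all the `q_i`.

Theorem. Fix `r ≥ 2`, `m₁, ..., m_s ≥ 1` and `U`. Let `G` of degree at most `r` and `q_i` of degree at
most `m_i` run through the polynomials whose coefficients are integers of `k` with coordinates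
between `-H` and `H`. Then for all of them, with the exception of a proportion which tends to zero if
`H` tends to infinity, the following holds: if the `q_i` and the discriminant
`d = (G² - A - B)² - 4 A B` are irreducible and `A B` and `d` are not constants times norms from a
quadratic extension of `k`, then the Tate conjecture at 2 holds for `E` and for all its base changes by
polynomials `h` of odd degree such that the prime divisors of `A B d` remain prime after `t ↦ h(t)`.

These surfaces are a thin subset of the surfaces in `MP_021685_ag.AlmostAllSurfaces`, to which that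
result says nothing (the condition used there fails for the divisor `A` of `b`, as there is a section
which belongs to it).

Proof. Descent by 2-isogenies over `k(t)` (`Pool.Agent.R939.EI.Main`). The divisors `1`, `A`, `B`, `A B`
of `b` come from points. For all the other products `A_S` of some of the `q_i` it is shown that for
almost all parameters no quaternion algebra `(ε A_S, d)` over `k(t)`, `ε ∈ k*`, splits: modulo a prime
ideal `P`, for a proportion of the parameters which is bounded from below, `d` has two simple roots `e`,
`e'` such that `A_S(e) A_S(e')` is not a square. The roots are found with `A(e)`, `B(e)` squares and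
`G(e) = √A(e) + √B(e)`.
-/

namespace Pool.Agent.Results.MP_17a657_ag.AlmostAllWithSection

open Polynomial NumberField Pool.Agent.TH115.GD Pool.Agent.R939.EI

theorem result {k k' K F : Type} [Field k] [NumberField k] [Field k'] [Algebra k k'] [Field K]
    [Algebra k[X] K] [Field F] [Algebra k'[X] F] [IsFractionRing k'[X] F] [Algebra K F]
    (hT : IsTower k k' K F) {J : Type} [Fintype J] (B : Module.Basis J ℤ (𝓞 k)) {r s : ℕ}
    (m : Fin s → ℕ) (hr : 2 ≤ r) (hm : ∀ i, 1 ≤ m i) (U : Finset (Fin s)) {η : ℝ} (hη : 0 < η) :
    ∃ H0 : ℕ, ∀ H : ℕ, H0 ≤ H →
      (({x : (Fin (r + 1) → 𝓞 k) × ((i : Fin s) → Fin (m i + 1) → 𝓞 k) |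
        ((∀ j t, |B.repr (x.1 j) t| ≤ (H : ℤ)) ∧ ∀ i j t, |B.repr (x.2 i j) t| ≤ (H : ℤ)) ∧
        (∀ i, Irreducible (polA fun j => algebraMap (𝓞 k) k (x.2 i j))) ∧
        Irreducible (polT U (fun j => algebraMap (𝓞 k) k (x.1 j))
          (fun i j => algebraMap (𝓞 k) k (x.2 i j))) ∧
        NotNorm (polP fun i j => algebraMap (𝓞 k) k (x.2 i j)) ∧
        NotNorm (polT U (fun j => algebraMap (𝓞 k) k (x.1 j))
          (fun i j => algebraMap (𝓞 k) k (x.2 i j))) ∧
        ¬ TateC k' K F (polS U (fun j => algebraMap (𝓞 k) k (x.1 j))
            (fun i j => algebraMap (𝓞 k) k (x.2 i j)))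
          (polP fun i j => algebraMap (𝓞 k) k (x.2 i j))}.ncard : ℕ) : ℝ) ≤
        η * (2 * H + 1) ^ (Fintype.card J * (r + 1 + ∑ i, (m i + 1))) :=
  density_sec hT B m hr hm U hη

end Pool.Agent.Results.MP_17a657_ag.AlmostAllWithSection
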