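import Pool.Agent.R401.Pu

/-!
# The Tate conjecture for divisors and point counts modulo the norms of the places

Let `X` be a smooth projective variety over a number field `K` and let `T = V_p Br(X ⊗ K̄)` be the
quotient of `H²(X ⊗ K̄, ℚ_p(1))` by `NS(X ⊗ K̄) ⊗ ℚ_p`; let `N` be the action of the Galois group on
`NS(X ⊗ K̄)` modulo torsion. For almost all places `v` let `b v` be the integer
`tr (F_v | H²(X ⊗ K̄, ℚ_p))`, where `F_v` is the geometric Frobenius element; if `X` is a surface with
`b₁ = 0` (for example, geometrically simply connected), then the number of points of the reduction of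
`X` over the residue field of `v` is `1 + b v + N(v) ^ 2`. By Deligne `|b v| ≤ b₂ N(v)`.

We say that `T` has no Tate subquotient if there is no open subgroup `U` of the Galois group such
that the restriction of `T` to `U` has a nonzero subquotient on which `U` acts trivially. Then
`V_p Br(X ⊗ K̄) ^ U = 0` for all `U`, that is, the Tate conjecture for divisors holds for `X` over all
finite extensions of `K` (and it is equivalent to this if `H²` is semisimple).

**Theorem.** Let `X` and `Y` be two such varieties. There is a finite Galois extension `K₀` of `K`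
such that one of the following holds.

(1) The set of the places `v` of `K` which split completely in `K₀` and for which
`tr (F_v | H²(X)) ≡ tr (F_v | H²(Y))` modulo `N(v)` has density zero.

(2) This congruence holds for all the places `v` which split completely in `K₀` and at which `X` and
`Y` have good reduction, `v` not above `p`, and the difference of the traces of `T_X` and `T_Y` is
constant on `Gal(K̄/K₀)`, equal to `dim T_X - dim T_Y`. If moreover `T_Y` has no Tate subquotient
(for example, `Y` is an abelian variety, by Faltings, or a K3 surface) then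
`dim T_X ≥ dim T_Y`, and `T_X` has no Tate subquotient if and only if `dim T_X = dim T_Y`.

So let `X` and `Y` be surfaces with `b₁ = 0`, `T_Y` without Tate subquotient. If the numbers of
points of `X` and of `Y` are congruent modulo `N(v)` for a set of places `v` of `K₀` of positive upper
density, then the Tate conjecture for `X` over all finite extensions of `K` (with the semisimplicity
of the Tate part) is equivalent to the equality `b₂(X) - ρ(X) = b₂(Y) - ρ(Y)` of the ranks of the
transcendental lattices. The congruence does not involve the Néron-Severi groups: it says that the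
Frobenius elements have the same trace on `H²(X_v, O)` and on `H²(Y_v, O)`, in `ℤ/N(v)`. Equality of
traces at any place is not supposed.

Proof. The difference of the traces of the Frobenius element on `T_X` and `T_Y` is an integer which
takes only finitely many values at the places in question. Let `H₀` be an open normal subgroup such
that the dimension of the space which is generated by the triples `(T_X(g), T_Y(g), 1)`, `g ∈ H₀`, is
minimal. By Chebotarev's theorem for closed sets and the theorem `Pool.Agent.R401.Hm.exists_coset` the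
difference of the traces is constant on a coset of an open subgroup in `H₀`; as this coset generates
the same space as `H₀` up to the multiplication by an element, the difference is constant on `H₀`. If
`T_Y` has no trivial subquotient over `U`, then there is an element of the group ring of `U` of
augmentation `1` which acts as `0` on `T_Y`; the traces of its powers on `T_X` are then equal to
`dim T_X - dim T_Y`, and the rest is linear algebra.
-/

set_option autoImplicit false

namespace Pool.Agent.Results.MP_17a657_ag.PointCountsModNorm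

open NumberField IsDedekindDomain Filter Matrix

/-- the absolute Galois group of the field `K`, with the Krull topology -/
abbrev AbsGal (K : Type) [Field K] : Type := Gal(AlgebraicClosure K/K)

section
variable {K : Type} [Field K] [NumberField K]

/-- `g` is an (arithmetic) Frobenius element at a maximal ideal `Q` of the ring of all algebraic
integers which lies above the finite place `v` of `K`. -/
def IsFrobenius (v : HeightOneSpectrum (𝓞 K)) (g : AbsGal K) : Prop :=
  ∃ Q : Ideal (𝓞 (AlgebraicClosure K)), Q.IsMaximal ∧
    Q.comap (algebraMap (𝓞 K) (𝓞 (AlgebraicClosure K))) = v.asIdeal ∧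
    ∀ x : 𝓞 (AlgebraicClosure K), g • x - x ^ Ideal.absNorm v.asIdeal ∈ Q

/-- the matrix of `g` -/
noncomputable def mat {R : Type} [CommRing R] {n : ℕ} (V : AbsGal K →* GL (Fin n) R)
    (g : AbsGal K) : Matrix (Fin n) (Fin n) R := (V g : GL (Fin n) R)

/-- The data which are given by the second cohomology of a smooth projective variety `X` over `K`:
`N` is the action on the Néron-Severi group of `X ⊗ K̄` modulo torsion (it factors through a finite
quotient), `T` is the action on the quotient of `H²(X ⊗ K̄, ℚ_p(1))` by the classes of divisors, the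
integer `b v` is the trace of the geometric Frobenius element on `H²(X ⊗ K̄, ℚ_p)` for `v ∉ B`, and its
absolute value is at most a multiple of the norm of `v`. -/
def IsSecondCohomology {p : ℕ} [Fact p.Prime] {r s : ℕ} (B : Set (HeightOneSpectrum (𝓞 K)))
    (N : AbsGal K →* GL (Fin r) ℤ) (T : AbsGal K →* GL (Fin s) ℚ_[p])
    (b : HeightOneSpectrum (𝓞 K) → ℤ) : Prop :=
  IsOpen (N.ker : Set (AbsGal K)) ∧ Continuous T ∧
  (∃ C : ℕ, ∀ v, v ∉ B → |b v| ≤ C * Ideal.absNorm v.asIdeal) ∧
  ∀ v, v ∉ B → (p : 𝓞 K) ∉ v.asIdeal → ∀ g, IsFrobenius v g →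
    (b v : ℚ_[p]) = Ideal.absNorm v.asIdeal * (((mat N g⁻¹).trace : ℚ_[p]) + (mat T g⁻¹).trace)

/-- `T` has no Tate subquotient: there is no open subgroup `U` with a stable subspace `Y` and a
nonzero equivariant linear map from `Y` to the trivial representation of `U`. -/
def NoTateSubquotient {p : ℕ} [Fact p.Prime] {s : ℕ} (T : AbsGal K →* GL (Fin s) ℚ_[p]) : Prop :=
  ∀ U : Subgroup (AbsGal K), IsOpen (U : Set (AbsGal K)) →
    ¬ ∃ (Y : Submodule ℚ_[p] (Fin s → ℚ_[p])) (f : (Fin s → ℚ_[p]) →ₗ[ℚ_[p]] ℚ_[p]),
      (∀ g ∈ U, ∀ y ∈ Y, mat T g *ᵥ y ∈ Y) ∧ (∃ y ∈ Y, f y ≠ 0) ∧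
      ∀ g ∈ U, ∀ y ∈ Y, f (mat T g *ᵥ y) = f y

/-- The place `v` splits completely in the field which is fixed by the normal subgroup `H`. -/
def SplitsIn (H : Subgroup (AbsGal K)) (v : HeightOneSpectrum (𝓞 K)) : Prop :=
  ∀ g, IsFrobenius v g → g ∈ H

end

/-- **Point counts modulo the norms.** -/
theorem result {K : Type} [Field K] [NumberField K] (p : ℕ) [Fact p.Prime] {r s r' t : ℕ}
    (B : Set (HeightOneSpectrum (𝓞 K))) (hB : B.Finite)
    -- the variety `X`
    (N : AbsGal K →* GL (Fin r) ℤ) (T : AbsGal K →* GL (Fin s) ℚ_[p])
    (b : HeightOneSpectrum (𝓞 K) → ℤ) (hX : IsSecondCohomology B N T b)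
    -- the variety `Y`
    (N' : AbsGal K →* GL (Fin r') ℤ) (T' : AbsGal K →* GL (Fin t) ℚ_[p])
    (b' : HeightOneSpectrum (𝓞 K) → ℤ) (hY : IsSecondCohomology B N' T' b') :
    ∃ H₀ : Subgroup (AbsGal K), H₀.Normal ∧ IsOpen (H₀ : Set (AbsGal K)) ∧
      ((∀ δ : ℝ, 0 < δ → ∀ᶠ x : ℕ in atTop,
        ({v : HeightOneSpectrum (𝓞 K) | Ideal.absNorm v.asIdeal ≤ x ∧
          (SplitsIn H₀ v ∧ (Ideal.absNorm v.asIdeal : ℤ) ∣ b v - b' v)}.ncard : ℝ) ≤
            δ * Nat.primeCounting x) ∨
      ((∀ v, v ∉ B → (p : 𝓞 K) ∉ v.asIdeal → SplitsIn H₀ v →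
        (Ideal.absNorm v.asIdeal : ℤ) ∣ b v - b' v) ∧
      (∀ g ∈ H₀, (mat T g).trace - (mat T' g).trace = s - t) ∧
      (NoTateSubquotient T' → t ≤ s ∧ (NoTateSubquotient T ↔ s = t)))) := by
  obtain ⟨hN, hT, ⟨C, hC⟩, hb⟩ := hX
  obtain ⟨hN', hT', ⟨C', hC'⟩, hb'⟩ := hY
  have h0 : ∀ v : HeightOneSpectrum (𝓞 K), (0 : ℤ) ≤ (Ideal.absNorm v.asIdeal : ℤ) := fun v =>
    Int.natCast_nonneg _
  exact Pool.Agent.R401.Pu.main N hN N' hN' T hT T' hT' B hB b b' (C + C')
    (fun v hv => (hC v hv).trans (mul_le_mul_of_nonneg_right (by push_cast; omega) (h0 v)))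
    (fun v hv => (hC' v hv).trans (mul_le_mul_of_nonneg_right (by push_cast; omega) (h0 v)))
    hb hb'

end Pool.Agent.Results.MP_17a657_ag.PointCountsModNorm
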