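import Mathlib
import Pool.Agent.TH115.GD.Defs
import Pool.Agent.TH115.ID.Defs
import Pool.Agent.R939.EI.Tw1

/-!
# The Tate conjecture at 2 for quadratic twists of elliptic surfaces by inert primes

Let `k` be a field of characteristic different from 2 (for example finitely generated over its
prime field), `k'` a separable closure, `K = k(t)`, `F = k'(t)`, and let `a`, `b` be polynomials over
`k`, `d = a² - 4 b`, `E : y² = x (x² + a x + b)`. `TateAtTwo` for an elliptic curve over `K` says that all
classes in `V₂ Sel(E / F)` which are fixed by the Galois group of `k` come from points over `K`; this is
the Tate conjecture for divisors at the prime 2 on the elliptic surface over the projective line with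
generic fibre `E`.

Suppose that `b` and `d` are not constants times squares or times norms from quadratic extensions of
`k`, and that the descent by the 2-isogenies over `k(t)` leaves only the trivial divisors
(`OnlyTrivial`): the only monic squarefree divisors `A` of `b` for which a constant times `A` is a norm
from `K(√d)` (and so a square modulo the primes dividing `d` to an odd power) are `1` and `b`, up to
squares and constants; and the same for the divisors of `d` and norms from `K(√b)`.

Theorem. Let `D` be a polynomial over `k` such that neither `b` nor `d` is a square modulo a prime
dividing `D` (`InertIn`: the primes of `D` are inert in `K(√b)` and in `K(√d)`). Let `c ≠ 0` be a constant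
and `h` a polynomial of odd degree such that the prime divisors of `b d D` remain irreducible and
separable after the substitution `t ↦ h(t)`. Then the Tate conjecture at 2 holds for the surface
`c D(h) y² = x (x² + a(h) x + b(h))`.

So one surface `E` gives infinitely many quadratic twists, with any number of fibres of type `I₀*`
over closed points of any degrees, and towers of base changes of each of them. There is no condition
that relates the primes of `D` to each other or that fixes the symbols of `D` modulo the primes of
`b d`. For finite `k` the result is the finiteness of the Brauer group, and the conjecture of Birch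
and Swinnerton-Dyer (rank zero) for the twists.

Proof. A divisor of `b D²` which is divisible by a prime `π` of `D` cannot be a norm from `K(√d)` up to
constants, because `d` is not a square modulo `π` (`Splits.not_prime`). The condition on norms from
quadratic extensions of `k` is inherited by `c² b D²` and `c² d D²` (`notNorm_mul_sq`). So the criterion
for base changes of odd degree (`Pool.Agent.R939.EI.Odd5`) applies to the twist.
-/

namespace Pool.Agent.Results.MP_17a657_ag.TwistsByInertPrimes

open Polynomial Pool.Agent.TH115.GD Pool.Agent.R939.EI

theorem result {k k' K F : Type} [Field k] [Field k'] [Algebra k k'] [Field K] [Algebra k[X] K]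
    [Field F] [Algebra k'[X] F] [IsFractionRing k'[X] F] [Algebra K F] (hT : IsTower k k' K F)
    (h2 : (2 : k) ≠ 0) {a b : k[X]} (hb : b ≠ 0) (hd : a ^ 2 - 4 * b ≠ 0)
    (hNb : NotNorm b) (hNd : NotNorm (a ^ 2 - 4 * b))
    (hO : OnlyTrivial a b) (hO' : OnlyTrivial (-2 * a) (a ^ 2 - 4 * b))
    {D : k[X]} (hD : InertIn a b D) {c : k} (hc : c ≠ 0)
    {h : k[X]} (hodd : Odd h.natDegree)
    (hi : ∀ π : k[X], Irreducible π → π ∣ b * (a ^ 2 - 4 * b) * D →
      Irreducible (π.comp h) ∧ (π.comp h).Separable) :
    TateAtTwo (F := F) k' (crvT (algebraMap k[X] K ((C c * (a * D)).comp h))
      (algebraMap k[X] K ((C (c ^ 2) * (b * D ^ 2)).comp h))) :=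
  twist_main hT h2 hb hd hNb hNd hO hO' hD hc hodd hi

end Pool.Agent.Results.MP_17a657_ag.TwistsByInertPrimes
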